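import Pool.Agent.T2H28.EP.Twist
import Pool.Agent.T2H28.EP.Char

/-!
# Vinogradov systems with equal products, and twisted by almost all Dirichlet characters

For every `s` and every system `∑ F_j(x_i) = ∑ F_j(y_i)` of polynomial equations which contains a nonconstant polynomial (for
example the system of Vinogradov of any degree `k ≥ 1`), all but `O(N ^ (s - c))` of the solutions with `1 ≤ x_i, y_i ≤ N` and
`x_1 ⋯ x_s = y_1 ⋯ y_s` are diagonal, and for almost all Dirichlet characters `χ` modulo a prime `q > N ^ (2 s)` the mean value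
`∫ |∑_{n ≤ N} χ(n) e(α_1 F_1(n) + ⋯ + α_k F_k(n))| ^ (2 s) dα`, that is the sum of `χ(x_1 ⋯ x_s)` times the conjugate of
`χ(y_1 ⋯ y_s)` over the solutions, is the number of the diagonal solutions up to `O(N ^ (s - c))`: there is no factor `N ^ ε` and no
term `N ^ (2 s - k (k + 1) / 2)`.

Nothing is used besides Mathlib in the statement.
-/

set_option autoImplicit false

namespace Pool.Agent.Results.MP_e21eee_nt.EqualProducts

open Finset Polynomial

/-- The vectors `(x_1, …, x_s)` of integers with `1 ≤ x_i ≤ N`. -/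
def vectors (s N : ℕ) : Finset (Fin s → ℕ) := Fintype.piFinset (fun _ => Icc 1 N)

open Classical in
/-- The solutions `(x, y)` of the system `∑ F_j(x_i) = ∑ F_j(y_i)` (all `j`) with `1 ≤ x_i, y_i ≤ N`. -/
noncomputable def Sol {k : ℕ} (F : Fin k → ℤ[X]) (s N : ℕ) : Finset ((Fin s → ℕ) × (Fin s → ℕ)) :=
  (vectors s N ×ˢ vectors s N).filter
    (fun z => ∀ j, ∑ i, (F j).eval (z.1 i : ℤ) = ∑ i, (F j).eval (z.2 i : ℤ))

open Classical in
/-- The number `T_s(N)` of the diagonal pairs: `(y_1, …, y_s)` is a permutation of `(x_1, …, x_s)`. -/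
noncomputable def T (s N : ℕ) : ℕ :=
  ((vectors s N ×ˢ vectors s N).filter (fun z => ∃ σ : Equiv.Perm (Fin s), z.2 = z.1 ∘ σ)).card

/-- The number of the solutions of the system with `x_1 ⋯ x_s = y_1 ⋯ y_s`. -/
noncomputable def equalProducts {k : ℕ} (F : Fin k → ℤ[X]) (s N : ℕ) : ℕ :=
  ((Sol F s N).filter (fun z => ∏ i, z.1 i = ∏ i, z.2 i)).card

/-- The mean value twisted by the character `χ`: the sum over the solutions of `χ(x_1 ⋯ x_s)` times the conjugate of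
`χ(y_1 ⋯ y_s)`. -/
noncomputable def J {k : ℕ} (F : Fin k → ℤ[X]) (s N q : ℕ) (χ : DirichletCharacter ℂ q) : ℂ :=
  ∑ z ∈ Sol F s N, χ ((∏ i, z.1 i : ℕ) : ZMod q) * (starRingEnd ℂ) (χ ((∏ i, z.2 i : ℕ) : ZMod q))

lemma mem_Sol {k : ℕ} {F : Fin k → ℤ[X]} {s N : ℕ} {z : (Fin s → ℕ) × (Fin s → ℕ)} :
    z ∈ Sol F s N ↔ z.1 ∈ T2H28.EP.box s N ∧ z.2 ∈ T2H28.EP.box s N ∧
      ∀ j, ∑ i, (F j).eval (z.1 i : ℤ) = ∑ i, (F j).eval (z.2 i : ℤ) := by
  unfold Sol
  rw [mem_filter, mem_product, and_assoc]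
  rfl

open Classical in
/-- The nondiagonal solutions. -/
noncomputable def Nd {k : ℕ} (F : Fin k → ℤ[X]) (s N : ℕ) : Finset ((Fin s → ℕ) × (Fin s → ℕ)) :=
  (Sol F s N).filter (fun z => ¬ ∃ σ : Equiv.Perm (Fin s), z.2 = z.1 ∘ σ)

open Classical in
/-- The diagonal solutions. -/
noncomputable def Di {k : ℕ} (F : Fin k → ℤ[X]) (s N : ℕ) : Finset ((Fin s → ℕ) × (Fin s → ℕ)) :=
  (Sol F s N).filter (fun z => ∃ σ : Equiv.Perm (Fin s), z.2 = z.1 ∘ σ)

lemma Di_card {k : ℕ} (F : Fin k → ℤ[X]) (s N : ℕ) : (Di F s N).card = T s N := by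
  classical
  unfold Di T
  congr 1
  ext z
  rw [mem_filter, mem_filter, mem_product, mem_Sol]
  constructor
  · rintro ⟨⟨h1, h2, _⟩, h4⟩
    exact ⟨⟨h1, h2⟩, h4⟩
  · rintro ⟨⟨h1, h2⟩, σ, hσ⟩
    refine ⟨⟨h1, h2, fun j => ?_⟩, σ, hσ⟩
    rw [hσ]
    exact (Equiv.sum_comp σ (fun i => (F j).eval (z.1 i : ℤ))).symm

lemma prod_perm {s : ℕ} {z : (Fin s → ℕ) × (Fin s → ℕ)}
    (h : ∃ σ : Equiv.Perm (Fin s), z.2 = z.1 ∘ σ) : ∏ i, z.1 i = ∏ i, z.2 i := by
  obtain ⟨σ, hσ⟩ := h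
  rw [hσ]
  exact (Equiv.prod_comp σ z.1).symm

/-- The Chebyshev inequality. -/
lemma cheb {ι : Type*} [Fintype ι] (f : ι → ℝ) (hf : ∀ i, 0 ≤ f i) (a : ℝ) (ha : 0 < a) (B : ℝ)
    (h : ∑ i, f i ^ 2 ≤ B * a ^ 2) [DecidablePred fun i => a < f i] :
    (((univ : Finset ι).filter (fun i => a < f i)).card : ℝ) ≤ B := by
  have h1 : (((univ : Finset ι).filter (fun i => a < f i)).card : ℝ) * a ^ 2 ≤ ∑ i, f i ^ 2 := by
    calc _ = ∑ _i ∈ (univ : Finset ι).filter (fun i => a < f i), a ^ 2 := by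
          rw [Finset.sum_const, nsmul_eq_mul]
      _ ≤ ∑ i ∈ (univ : Finset ι).filter (fun i => a < f i), f i ^ 2 := by
          refine Finset.sum_le_sum fun i hi => ?_
          exact pow_le_pow_left₀ ha.le (mem_filter.1 hi).2.le 2
      _ ≤ _ := Finset.sum_le_sum_of_subset_of_nonneg (filter_subset _ _) fun i _ _ => sq_nonneg _
  have h2 : 0 < a ^ 2 := by positivity
  exact le_of_mul_le_mul_right (h1.trans h) h2

open Classical in
/-- Let `s ≥ 1` and `d` be given. There is a constant `C` such that for all `N ≥ 1` and all systems `F = (F_1, …, F_k)` (any `k`)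
of polynomials with integer coefficients, one of which has a degree in `[1, d]`:

(1) the number of the solutions of `∑ F_j(x_i) = ∑ F_j(y_i)` (all `j`) with `1 ≤ x_i, y_i ≤ N` and `x_1 ⋯ x_s = y_1 ⋯ y_s` is at
least `T_s(N)` and at most `T_s(N) + C N ^ (s - 1 / (2 s + 2))`;

(2) for all primes `q > N ^ (2 s)` the sum over all Dirichlet characters `χ` modulo `q` of `|J(χ) - T_s(N)| ^ 2` is at most
`C (q - 1) N ^ (2 s - 1 / (4 s + 2))`, and `|J(χ) - T_s(N)| ≤ N ^ (s - 1 / (16 s + 8))` for all but at most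
`C (q - 1) N ^ (- 1 / (8 s + 4))` of the `q - 1` characters. -/
theorem result (s d : ℕ) (hs : 1 ≤ s) : ∃ C : ℝ, 0 < C ∧ ∀ N : ℕ, 1 ≤ N →
    ∀ (k : ℕ) (F : Fin k → ℤ[X]), (∃ j, 0 < (F j).natDegree ∧ (F j).natDegree ≤ d) →
    ((T s N : ℝ) ≤ equalProducts F s N ∧
      (equalProducts F s N : ℝ) ≤ T s N + C * (N : ℝ) ^ ((s : ℝ) - 1 / (2 * s + 2))) ∧
    ∀ (q : ℕ) [Fact q.Prime], N ^ (2 * s) < q →
      (∑ χ : DirichletCharacter ℂ q, ‖J F s N q χ - T s N‖ ^ 2 ≤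
        C * ((q : ℝ) - 1) * (N : ℝ) ^ (2 * (s : ℝ) - 1 / (4 * s + 2))) ∧
      (((univ : Finset (DirichletCharacter ℂ q)).filter
        (fun χ => (N : ℝ) ^ ((s : ℝ) - 1 / (16 * s + 8)) < ‖J F s N q χ - T s N‖)).card : ℝ) ≤
        C * ((q : ℝ) - 1) * (N : ℝ) ^ (-(1 / (8 * (s : ℝ) + 4))) := by
  obtain ⟨C1, hC1, h1⟩ := T2H28.EP.partOne s d hs
  obtain ⟨C2, hC2, h2⟩ := T2H28.EP.quad_card s d hs
  refine ⟨C1 + C2, by positivity, fun N hN k F hF => ⟨⟨?_, ?_⟩, ?_⟩⟩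
  · rw [← Di_card F s N]
    unfold equalProducts
    refine Nat.cast_le.2 (card_le_card fun z hz => ?_)
    unfold Di at hz
    rw [mem_filter] at hz ⊢
    exact ⟨hz.1, prod_perm hz.2⟩
  · obtain ⟨j, hj0, hjd⟩ := hF
    have h3 := h1 N hN (F j) hj0 hjd
    have hN1 : (1 : ℝ) ≤ N := by exact_mod_cast hN
    have h4 : equalProducts F s N ≤ T s N + (T2H28.EP.Non s N (F j)).card := by
      rw [← Di_card F s N]
      unfold equalProducts
      refine le_trans (card_le_card (t := Di F s N ∪ T2H28.EP.Non s N (F j)) fun z hz => ?_)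
        (card_union_le _ _)
      rw [mem_filter] at hz
      have h5 := mem_Sol.1 hz.1
      rw [mem_union]
      unfold Di T2H28.EP.Non
      rw [mem_filter, mem_filter, mem_product]
      by_cases h : ∃ σ : Equiv.Perm (Fin s), z.2 = z.1 ∘ σ
      · exact Or.inl ⟨hz.1, h⟩
      · exact Or.inr ⟨⟨h5.1, h5.2.1⟩, hz.2, h5.2.2 j, h⟩
    have h6 : (equalProducts F s N : ℝ) ≤ T s N + (T2H28.EP.Non s N (F j)).card := by
      exact_mod_cast h4
    have e : (s : ℝ) - 1 / (2 * (s + 1)) = (s : ℝ) - 1 / (2 * s + 2) := by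
      congr 1
      congr 1
      ring
    rw [e] at h3
    have h7 : (0 : ℝ) ≤ (N : ℝ) ^ ((s : ℝ) - 1 / (2 * s + 2)) := by positivity
    rw [add_mul]
    nlinarith
  · intro q hq hqN
    obtain ⟨j, hj0, hjd⟩ := hF
    have hN1 : (1 : ℝ) ≤ N := by exact_mod_cast hN
    have hNq : N < q := by
      refine lt_of_le_of_lt ?_ hqN
      calc N = N ^ 1 := (pow_one N).symm
        _ ≤ N ^ (2 * s) := Nat.pow_le_pow_right hN (by omega)
    have hq1 : (0 : ℝ) ≤ (q : ℝ) - 1 := by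
      have : (1 : ℝ) ≤ q := by exact_mod_cast hq.out.one_lt.le
      linarith
    -- the products are prime to `q`
    have hne : ∀ u ∈ T2H28.EP.box s N, (((∏ i, u i : ℕ)) : ZMod q) ≠ 0 := by
      intro u hu h
      rw [ZMod.natCast_eq_zero_iff] at h
      obtain ⟨i, _, hi⟩ := (Nat.Prime.prime hq.out).exists_mem_finset_dvd h
      have h5 := T2H28.EP.mem_box.1 hu i
      have := Nat.le_of_dvd (by omega) hi
      omega
    -- the difference is the sum over the nondiagonal solutions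
    have hdiff : ∀ χ : DirichletCharacter ℂ q, J F s N q χ - T s N =
        ∑ z ∈ Nd F s N, χ ((∏ i, z.1 i : ℕ) : ZMod q) *
          (starRingEnd ℂ) (χ ((∏ i, z.2 i : ℕ) : ZMod q)) := by
      intro χ
      unfold J
      rw [← Finset.sum_filter_add_sum_filter_not (Sol F s N)
        (fun z => ∃ σ : Equiv.Perm (Fin s), z.2 = z.1 ∘ σ)]
      have h5 : ∑ z ∈ (Sol F s N).filter (fun z => ∃ σ : Equiv.Perm (Fin s), z.2 = z.1 ∘ σ),
          χ ((∏ i, z.1 i : ℕ) : ZMod q) * (starRingEnd ℂ) (χ ((∏ i, z.2 i : ℕ) : ZMod q)) =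
          T s N := by
        rw [← Di_card F s N]
        unfold Di
        rw [Finset.card_eq_sum_ones, Nat.cast_sum]
        refine Finset.sum_congr rfl fun z hz => ?_
        rw [mem_filter] at hz
        have h6 := mem_Sol.1 hz.1
        rw [prod_perm hz.2, Complex.mul_conj']
        have h7 := DirichletCharacter.unit_norm_eq_one χ (Units.mk0 _ (hne z.2 h6.2.1))
        rw [Units.val_mk0] at h7
        rw [h7]
        simp
      rw [h5]
      unfold Nd
      ring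
    have hms : ∑ χ : DirichletCharacter ℂ q, ‖J F s N q χ - T s N‖ ^ 2 ≤
        ((q : ℝ) - 1) * (T2H28.EP.Quad s N (F j)).card := by
      simp only [hdiff]
      rw [T2H28.EP.char_ms q (Nd F s N) (fun z => ∏ i, z.1 i) (fun z => ∏ i, z.2 i)
        (fun z hz => hne _ (mem_Sol.1 (mem_filter.1 hz).1).1)
        (fun z hz => hne _ (mem_Sol.1 (mem_filter.1 hz).1).2.1)]
      rw [Nat.cast_sub hq.out.one_lt.le, Nat.cast_one]
      refine mul_le_mul_of_nonneg_left ?_ hq1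
      refine Nat.cast_le.2 (card_le_card fun t ht => ?_)
      rw [mem_filter, mem_product] at ht
      obtain ⟨⟨ht1, ht2⟩, ht3⟩ := ht
      unfold Nd at ht1 ht2
      rw [mem_filter, mem_Sol] at ht1 ht2
      rw [T2H28.EP.mem_Quad, T2H28.EP.mem_NonV, T2H28.EP.mem_NonV]
      refine ⟨⟨ht1.1.1, ht1.1.2.1, ht1.1.2.2 j, ht1.2⟩, ⟨ht2.1.1, ht2.1.2.1, ht2.1.2.2 j, ht2.2⟩, ?_⟩
      rw [← Nat.cast_mul, ← Nat.cast_mul, ZMod.natCast_eq_natCast_iff'] at ht3
      have hb : ∀ u v : Fin s → ℕ, u ∈ T2H28.EP.box s N → v ∈ T2H28.EP.box s N →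
          (∏ i, u i) * ∏ i, v i < q := by
        intro u v hu hv
        refine lt_of_le_of_lt ?_ hqN
        calc (∏ i, u i) * ∏ i, v i ≤ N ^ s * N ^ s :=
              Nat.mul_le_mul (T2H28.EP.prod_le hu) (T2H28.EP.prod_le hv)
          _ = N ^ (2 * s) := by rw [← pow_add]; congr 1; omega
      rw [Nat.mod_eq_of_lt (hb _ _ ht1.1.2.1 ht2.1.1),
        Nat.mod_eq_of_lt (hb _ _ ht1.1.1 ht2.1.2.1)] at ht3
      exact ht3.symm
    have h8 := h2 N hN (F j) hj0 hjd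
    have h9 : ∑ χ : DirichletCharacter ℂ q, ‖J F s N q χ - T s N‖ ^ 2 ≤
        (C1 + C2) * ((q : ℝ) - 1) * (N : ℝ) ^ (2 * (s : ℝ) - 1 / (4 * s + 2)) := by
      refine hms.trans ?_
      have h10 : (0 : ℝ) ≤ (N : ℝ) ^ (2 * (s : ℝ) - 1 / (4 * s + 2)) := by positivity
      calc ((q : ℝ) - 1) * ((T2H28.EP.Quad s N (F j)).card : ℝ)
          ≤ ((q : ℝ) - 1) * (C2 * (N : ℝ) ^ (2 * (s : ℝ) - 1 / (4 * s + 2))) :=
            mul_le_mul_of_nonneg_left h8 hq1
        _ ≤ ((q : ℝ) - 1) * ((C1 + C2) * (N : ℝ) ^ (2 * (s : ℝ) - 1 / (4 * s + 2))) := by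
            refine mul_le_mul_of_nonneg_left ?_ hq1
            exact mul_le_mul_of_nonneg_right (by linarith) h10
        _ = _ := by ring
    refine ⟨h9, ?_⟩
    have hN0 : (0 : ℝ) < N := by linarith
    refine cheb (fun χ : DirichletCharacter ℂ q => ‖J F s N q χ - T s N‖)
      (fun χ => norm_nonneg _) ((N : ℝ) ^ ((s : ℝ) - 1 / (16 * s + 8))) (by positivity) _
      (h9.trans (le_of_eq ?_))
    rw [mul_assoc _ ((N : ℝ) ^ (-(1 / (8 * (s : ℝ) + 4))))]
    congr 1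
    rw [← Real.rpow_natCast ((N : ℝ) ^ ((s : ℝ) - 1 / (16 * s + 8))) 2,
      ← Real.rpow_mul hN0.le, ← Real.rpow_add hN0]
    congr 1
    have hs0 : (0 : ℝ) < s := by exact_mod_cast hs
    push_cast
    field_simp
    ring

end Pool.Agent.Results.MP_e21eee_nt.EqualProducts
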