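import Pool.Agent.T2H72.VMV.Fin

/-! # Vinogradov's system in `s` pairs of variables, `s` up to `√(3/2) k` -/

set_option autoImplicit false

namespace Pool.Agent.Results.MP_e21eee_nt.PaucityLattice

open scoped Classical in
/-- Let `k < s` and `d = s - k`. Then:
1. the number of non-diagonal solutions in `[1,N]` of Vinogradov's system of degree `k` in `s` pairs of variables
is `O(N^(√(4dk + 2d(d-1) + 5) + d - 1 + ε))` for every `ε > 0` (for `d = 1` the exponent is `√(4k+5) + ε`);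
2. if `4dk + 2d(d-1) + 5 < k^2`, the number of all solutions is `s! N^s + O(N^(s-1))`;
3. if `4dk + 2d(d-1) + 5 < (k+1)^2`, the number of all solutions is `O(N^s)`. -/
theorem result (s k : ℕ) (hks : k < s) :
    (∀ ε : ℝ, 0 < ε → ∃ C : ℝ, ∀ N : ℕ, 1 ≤ N →
      ((((Fintype.piFinset fun _ : Fin s => Finset.Icc 1 N) ×ˢ
          (Fintype.piFinset fun _ : Fin s => Finset.Icc 1 N)).filter
          (fun p : (Fin s → ℕ) × (Fin s → ℕ) =>
            (∀ j : Fin k, ∑ i : Fin s, p.1 i ^ (j.val + 1) = ∑ i : Fin s, p.2 i ^ (j.val + 1)) ∧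
            ¬ ∃ σ : Equiv.Perm (Fin s), p.2 = p.1 ∘ σ)).card : ℝ)
        ≤ C * (N : ℝ) ^
          (Real.sqrt (4 * ((s : ℝ) - k) * k + 2 * ((s : ℝ) - k) * ((s : ℝ) - k - 1) + 5)
            + ((s : ℝ) - k - 1) + ε)) ∧
    (4 * (s - k) * k + 2 * (s - k) * (s - k - 1) + 5 < k ^ 2 → ∃ C : ℝ, ∀ N : ℕ, 1 ≤ N →
      |((((Fintype.piFinset fun _ : Fin s => Finset.Icc 1 N) ×ˢ
          (Fintype.piFinset fun _ : Fin s => Finset.Icc 1 N)).filter
          (fun p : (Fin s → ℕ) × (Fin s → ℕ) =>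
            ∀ j : Fin k, ∑ i : Fin s, p.1 i ^ (j.val + 1) = ∑ i : Fin s, p.2 i ^ (j.val + 1))).card : ℝ)
          - (s.factorial : ℝ) * (N : ℝ) ^ s| ≤ C * (N : ℝ) ^ (s - 1)) ∧
    (4 * (s - k) * k + 2 * (s - k) * (s - k - 1) + 5 < (k + 1) ^ 2 → ∃ C : ℝ, ∀ N : ℕ, 1 ≤ N →
      ((((Fintype.piFinset fun _ : Fin s => Finset.Icc 1 N) ×ˢ
          (Fintype.piFinset fun _ : Fin s => Finset.Icc 1 N)).filter
          (fun p : (Fin s → ℕ) × (Fin s → ℕ) =>
            ∀ j : Fin k, ∑ i : Fin s, p.1 i ^ (j.val + 1) = ∑ i : Fin s, p.2 i ^ (j.val + 1))).card : ℝ)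
        ≤ C * (N : ℝ) ^ s) := by
  refine ⟨fun ε hε => ?_, fun h => ?_, fun h => ?_⟩
  · obtain ⟨C, -, hC⟩ := Pool.Agent.T2H72.VMV.nondiag s k ε hε
    refine ⟨C, fun N hN => ?_⟩
    have h1 := hC N hN
    rw [Pool.Agent.W89.VP.VN, Pool.Agent.W89.VP.VS, Finset.filter_filter] at h1
    convert h1 using 1
  · obtain ⟨C, hC⟩ := Pool.Agent.T2H72.VMV.asym s k hks h
    refine ⟨C, fun N hN => ?_⟩
    have h2 := hC N hN
    rw [Pool.Agent.W89.VP.VS] at h2
    convert h2 using 1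
  · obtain ⟨C, hC⟩ := Pool.Agent.T2H72.VMV.upper s k hks h
    refine ⟨C, fun N hN => ?_⟩
    have h2 := hC N hN
    rw [Pool.Agent.W89.VP.VS] at h2
    convert h2 using 1

end Pool.Agent.Results.MP_e21eee_nt.PaucityLattice
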