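import Pool.Agent.T2H31.NV.Asm
import Pool.Agent.T2H31.NV.T_SUB
import Pool.Agent.T2H31.NV.T_VDC
import Pool.Agent.T2H31.NV.T_DEC
import Pool.Agent.T2H31.NV.T_MEA
import Pool.Agent.T2H31.NV.T_VOL
import Pool.Agent.T2H31.NV.T_CUB
import Pool.Agent.T2H31.NV.T_FUB
import Pool.Agent.T2H31.NV.T_MOM
import Pool.Agent.T2H31.NV.T_BOC
import Pool.Agent.T2H31.NV.T_PAT
import Pool.Agent.T2H31.NV.T_EXI
import Pool.Agent.T2H31.NV.T_INT

/-!
# Vinogradov's mean value theorem without the epsilon for randomly perturbed integers, for all `s` and `k`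

Let `x n` be independent random numbers near the integers: `x n` is in `[n - 1/2, n + 1/2)` and its density is at most `D`
(`Near`); for instance `x n` is uniform on `[n - η, n + η)`, where `η > 0` may be arbitrarily small. `J x s k τ X` is the number
of the solutions `1 ≤ m i, n i ≤ X` (`i < s`) of `|∑ x (m i) ^ j - ∑ x (n i) ^ j| ≤ τ`, `1 ≤ j ≤ k`. For `x n = n` and `τ < 1` this
is the `J_(s,k)(X)` of the question. `Diag s X` is the number of the diagonal solutions.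

Theorem. Almost surely, for all `s ≥ 0`, `k ≥ 1` and `τ > 0` there is `C` with
`J x s k τ X ≤ Diag s X + C (X ^ (s - (k - 1) / (2 (k ^ 2 + 1))) + X ^ (2 s - k (k + 1) / 2))` for all `X ≥ 1`.

So the bound of the question is true for the perturbed integers for all `s` and `k` (for `(3, 2)`, too, where it fails for the
integers), and for `s < k (k + 1) / 2`, `k ≥ 2`, there are only `O(X ^ (s - δ))` nondiagonal solutions.

Proved in `Pool/Agent/T2H31/NV` with other helpers.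
-/

set_option autoImplicit false

open MeasureTheory ProbabilityTheory Finset Filter Topology

namespace Pool.Agent.Results.MP_e21eee_nt.PerturbedIntegers

open Pool.Agent.T2H31.NV

theorem result :
    (∀ (s k : ℕ) (τ : ℝ) (X : ℕ), 0 < τ → τ < 1 → J (fun n => (n : ℝ)) s k τ X = Jint s k X) ∧
    (∀ η : ℝ, 0 < η → η ≤ 1 / 2 → ∃ (Ω : Type) (_ : MeasurableSpace Ω) (P : Measure Ω) (x : ℕ → Ω → ℝ),
      Near P (Real.toNNReal (1 / (2 * η))) x ∧ ∀ n ω, |x n ω - n| ≤ η) ∧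
    (∀ s X : ℕ, Diag s X ≤ s.factorial * X ^ s) ∧
    (∀ (Ω : Type) [MeasurableSpace Ω] (P : Measure Ω) (D : NNReal) (x : ℕ → Ω → ℝ), Near P D x →
      ∀ᵐ ω ∂P, ∀ s k : ℕ, 1 ≤ k → ∀ τ : ℝ, 0 < τ → ∃ C : ℝ, ∀ X : ℕ, 1 ≤ X →
        (J (fun n => x n ω) s k τ X : ℝ) ≤ Diag s X +
          C * ((X : ℝ) ^ ((s : ℝ) - ((k : ℝ) - 1) / (2 * ((k : ℝ) ^ 2 + 1))) +
            (X : ℝ) ^ (2 * (s : ℝ) - (k : ℝ) * (k + 1) / 2))) := by
  have hVOL : P_VOL := T_VOL (T_MEA (T_DEC (T_VDC T_SUB)))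
  exact ⟨T_INT, T_EXI, diag_le, main (T_BOC (T_MOM T_CUB hVOL (T_FUB hVOL))) T_PAT⟩

end Pool.Agent.Results.MP_e21eee_nt.PerturbedIntegers
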