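import Pool.Agent.T2H28.EP.Twist
import Pool.Agent.T2H28.EP.Rand

/-!
# Vinogradov mean values with random multiplicative coefficients

For almost every random completely multiplicative function `f` the following holds for ALL `s ≥ 1` and ALL systems `F` of polynomials
with integer coefficients, not all constant (for example the system of Vinogradov of any degree): the mean value
`J(N) = ∫ |∑_{n ≤ N} f(n) e(α_1 F_1(n) + ⋯ + α_k F_k(n))| ^ (2 s) dα`, that is the sum of `f(x_1 ⋯ x_s)` times the conjugate of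
`f(y_1 ⋯ y_s)` over the solutions, is the number `T_s(N)` of the diagonal solutions up to `O(N ^ (s - c))` for all `N` outside a sparse
set.

Nothing is used besides Mathlib in the statement.
-/

set_option autoImplicit false

namespace Pool.Agent.Results.MP_e21eee_nt.RandomMultiplicative

open Finset Polynomial MeasureTheory

/-- The vectors `(x_1, …, x_s)` of integers with `1 ≤ x_i ≤ N`. -/
def vectors (s N : ℕ) : Finset (Fin s → ℕ) := Fintype.piFinset (fun _ => Icc 1 N)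

open Classical in
/-- The solutions `(x, y)` of the system `∑ F_j(x_i) = ∑ F_j(y_i)` (all `j`) with `1 ≤ x_i, y_i ≤ N`. -/
noncomputable def Sol {k : ℕ} (F : Fin k → ℤ[X]) (s N : ℕ) : Finset ((Fin s → ℕ) × (Fin s → ℕ)) :=
  (vectors s N ×ˢ vectors s N).filter
    (fun z => ∀ j, ∑ i, (F j).eval (z.1 i : ℤ) = ∑ i, (F j).eval (z.2 i : ℤ))

open Classical in
/-- The number `T_s(N)` of the diagonal pairs: `(y_1, …, y_s)` is a permutation of `(x_1, …, x_s)`. -/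
noncomputable def T (s N : ℕ) : ℕ :=
  ((vectors s N ×ˢ vectors s N).filter (fun z => ∃ σ : Equiv.Perm (Fin s), z.2 = z.1 ∘ σ)).card

/-- `f` is a random completely multiplicative function on the positive integers, its values have the absolute value `1`, and the
random variables `f(n)` are orthogonal. This holds if the `f(p)`, `p` prime, are independent and uniformly distributed on the unit
circle (a Steinhaus random multiplicative function). -/
structure IsRandomMultiplicative {Ω : Type} [MeasurableSpace Ω] (P : Measure Ω)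
    (f : ℕ → Ω → ℂ) : Prop where
  measurable : ∀ n, Measurable (f n)
  mul : ∀ m n : ℕ, 1 ≤ m → 1 ≤ n → ∀ ω, f (m * n) ω = f m ω * f n ω
  norm : ∀ n : ℕ, 1 ≤ n → ∀ ω, ‖f n ω‖ = 1
  orthogonal : ∀ m n : ℕ, 1 ≤ m → 1 ≤ n → m ≠ n →
    ∫ ω, f m ω * (starRingEnd ℂ) (f n ω) ∂P = 0

/-- The mean value with the coefficients `f(n)`: the sum over the solutions of `f(x_1 ⋯ x_s)` times the conjugate of
`f(y_1 ⋯ y_s)`. -/
noncomputable def J {k : ℕ} (F : Fin k → ℤ[X]) (s N : ℕ) (f : ℕ → ℂ) : ℂ :=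
  ∑ z ∈ Sol F s N, f (∏ i, z.1 i) * (starRingEnd ℂ) (f (∏ i, z.2 i))

lemma mem_Sol {k : ℕ} {F : Fin k → ℤ[X]} {s N : ℕ} {z : (Fin s → ℕ) × (Fin s → ℕ)} :
    z ∈ Sol F s N ↔ z.1 ∈ T2H28.EP.box s N ∧ z.2 ∈ T2H28.EP.box s N ∧
      ∀ j, ∑ i, (F j).eval (z.1 i : ℤ) = ∑ i, (F j).eval (z.2 i : ℤ) := by
  unfold Sol
  rw [mem_filter, mem_product, and_assoc]
  rfl

open Classical in
/-- The nondiagonal solutions. -/
noncomputable def Nd {k : ℕ} (F : Fin k → ℤ[X]) (s N : ℕ) : Finset ((Fin s → ℕ) × (Fin s → ℕ)) :=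
  (Sol F s N).filter (fun z => ¬ ∃ σ : Equiv.Perm (Fin s), z.2 = z.1 ∘ σ)

lemma prod_perm {s : ℕ} {z : (Fin s → ℕ) × (Fin s → ℕ)}
    (h : ∃ σ : Equiv.Perm (Fin s), z.2 = z.1 ∘ σ) : ∏ i, z.1 i = ∏ i, z.2 i := by
  obtain ⟨σ, hσ⟩ := h
  rw [hσ]
  exact (Equiv.prod_comp σ z.1).symm

open Classical in
lemma Di_card {k : ℕ} (F : Fin k → ℤ[X]) (s N : ℕ) :
    ((Sol F s N).filter (fun z => ∃ σ : Equiv.Perm (Fin s), z.2 = z.1 ∘ σ)).card = T s N := by
  unfold T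
  congr 1
  ext z
  rw [mem_filter, mem_filter, mem_product, mem_Sol]
  constructor
  · rintro ⟨⟨h1, h2, _⟩, h4⟩
    exact ⟨⟨h1, h2⟩, h4⟩
  · rintro ⟨⟨h1, h2⟩, σ, hσ⟩
    refine ⟨⟨h1, h2, fun j => ?_⟩, σ, hσ⟩
    rw [hσ]
    exact (Equiv.sum_comp σ (fun i => (F j).eval (z.1 i : ℤ))).symm

/-- The difference is the sum over the nondiagonal solutions. -/
lemma diff {Ω : Type} [MeasurableSpace Ω] {P : Measure Ω} {f : ℕ → Ω → ℂ}
    (hf : IsRandomMultiplicative P f) {k : ℕ} (F : Fin k → ℤ[X]) (s N : ℕ) (ω : Ω) :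
    J F s N (fun n => f n ω) - T s N =
      ∑ z ∈ Nd F s N, f (∏ i, z.1 i) ω * (starRingEnd ℂ) (f (∏ i, z.2 i) ω) := by
  classical
  unfold J
  rw [← Finset.sum_filter_add_sum_filter_not (Sol F s N)
    (fun z => ∃ σ : Equiv.Perm (Fin s), z.2 = z.1 ∘ σ)]
  have h5 : ∑ z ∈ (Sol F s N).filter (fun z => ∃ σ : Equiv.Perm (Fin s), z.2 = z.1 ∘ σ),
      f (∏ i, z.1 i) ω * (starRingEnd ℂ) (f (∏ i, z.2 i) ω) = T s N := by
    rw [← Di_card F s N]
    rw [Finset.card_eq_sum_ones, Nat.cast_sum]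
    refine Finset.sum_congr rfl fun z hz => ?_
    rw [mem_filter] at hz
    have h6 := mem_Sol.1 hz.1
    rw [prod_perm hz.2, Complex.mul_conj', hf.norm _ (T2H28.EP.prod_pos h6.2.1)]
    simp
  rw [h5]
  unfold Nd
  ring

lemma meas {Ω : Type} [MeasurableSpace Ω] {P : Measure Ω} {f : ℕ → Ω → ℂ}
    (hf : IsRandomMultiplicative P f) {k : ℕ} (F : Fin k → ℤ[X]) (s N : ℕ) :
    Measurable (fun ω => J F s N (fun n => f n ω) - T s N) := by
  unfold J
  refine Measurable.sub (Finset.measurable_sum _ fun z _ => ?_) measurable_const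
  exact (hf.measurable _).mul (Complex.continuous_conj.measurable.comp (hf.measurable _))

/-- Let `f` be a random completely multiplicative function. Almost surely, for all `s ≥ 1` and all systems `F = (F_1, …, F_k)` (any
`k`) of polynomials with integer coefficients, not all constant, there is a constant `K` such that for all `X ≥ 1`

(1) the sum over `N ≤ X` of `|J(N) - T_s(N)| ^ 2` is at most `K X ^ (2 s + 1 - 1 / (8 s + 4))`,

(2) `|J(N) - T_s(N)| ≤ X ^ (s - 1 / (32 s + 16))` for all `N ≤ X` with at most `K X ^ (1 - 1 / (16 s + 8))` exceptions. -/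
theorem result {Ω : Type} [MeasurableSpace Ω] (P : Measure Ω) [IsProbabilityMeasure P]
    (f : ℕ → Ω → ℂ) (hf : IsRandomMultiplicative P f) :
    ∀ᵐ ω ∂P, ∀ s : ℕ, 1 ≤ s → ∀ (k : ℕ) (F : Fin k → ℤ[X]), (∃ j, 0 < (F j).natDegree) →
      ∃ K : ℝ, 0 < K ∧ ∀ X : ℕ, 1 ≤ X →
        (∑ N ∈ Icc 1 X, ‖J F s N (fun n => f n ω) - T s N‖ ^ 2 ≤
          K * (X : ℝ) ^ (2 * (s : ℝ) + 1 - 1 / (8 * s + 4))) ∧
        ({N : ℕ | 1 ≤ N ∧ N ≤ X ∧ (X : ℝ) ^ ((s : ℝ) - 1 / (32 * s + 16)) <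
          ‖J F s N (fun n => f n ω) - T s N‖}.ncard : ℝ) ≤
          K * (X : ℝ) ^ (1 - 1 / (16 * (s : ℝ) + 8)) := by
  classical
  have hctb : Countable ℤ[X] := by
    rw [← Cardinal.mk_le_aleph0_iff]
    exact Polynomial.cardinalMk_le_max.trans (by simp)
  refine ae_all_iff.2 fun s => ?_
  by_cases hs : 1 ≤ s
  swap
  · exact ae_of_all _ fun ω h => absurd h hs
  refine (ae_all_iff.2 fun k => ae_all_iff.2 fun F => ?_ : ∀ᵐ ω ∂P, ∀ (k : ℕ) (F : Fin k → ℤ[X]),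
    (∃ j, 0 < (F j).natDegree) → _).mono fun ω h _ => h
  by_cases hF : ∃ j, 0 < (F j).natDegree
  swap
  · exact ae_of_all _ fun ω h => absurd h hF
  obtain ⟨j, hj⟩ := hF
  have hs0 : (1 : ℝ) ≤ s := by exact_mod_cast hs
  obtain ⟨C, hC, h2⟩ := T2H28.EP.quad_card s (F j).natDegree hs
  have hsq : ∀ N ω, ‖J F s N (fun n => f n ω) - T s N‖ ^ 2 =
      ‖∑ z ∈ Nd F s N, f (∏ i, z.1 i) ω * (starRingEnd ℂ) (f (∏ i, z.2 i) ω)‖ ^ 2 := by
    intro N ω
    rw [diff hf]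
  have hbd : ∀ N ω, ‖J F s N (fun n => f n ω) - T s N‖ ≤ (Nd F s N).card := by
    intro N ω
    rw [diff hf]
    refine (norm_sum_le _ _).trans ?_
    rw [Finset.card_eq_sum_ones, Nat.cast_sum]
    refine Finset.sum_le_sum fun z hz => ?_
    have h6 := mem_Sol.1 (mem_filter.1 hz).1
    rw [norm_mul, RCLike.norm_conj, hf.norm _ (T2H28.EP.prod_pos h6.1),
      hf.norm _ (T2H28.EP.prod_pos h6.2.1)]
    simp
  have hmain : ∀ N : ℕ, 1 ≤ N → ∫ ω, ‖J F s N (fun n => f n ω) - T s N‖ ^ 2 ∂P ≤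
      C * (N : ℝ) ^ (2 * (s : ℝ) - 1 / (4 * s + 2)) := by
    intro N hN
    simp_rw [hsq]
    rw [T2H28.EP.rand_ms P f hf.measurable hf.mul hf.norm hf.orthogonal (Nd F s N)
      (fun z => ∏ i, z.1 i) (fun z => ∏ i, z.2 i)
      (fun z hz => T2H28.EP.prod_pos (mem_Sol.1 (mem_filter.1 hz).1).1)
      (fun z hz => T2H28.EP.prod_pos (mem_Sol.1 (mem_filter.1 hz).1).2.1)]
    refine le_trans (Nat.cast_le.2 (card_le_card fun t ht => ?_)) (h2 N hN (F j) hj le_rfl)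
    rw [mem_filter, mem_product] at ht
    obtain ⟨⟨ht1, ht2⟩, ht3⟩ := ht
    unfold Nd at ht1 ht2
    rw [mem_filter, mem_Sol] at ht1 ht2
    rw [T2H28.EP.mem_Quad, T2H28.EP.mem_NonV, T2H28.EP.mem_NonV]
    exact ⟨⟨ht1.1.1, ht1.1.2.1, ht1.1.2.2 j, ht1.2⟩, ⟨ht2.1.1, ht2.1.2.1, ht2.1.2.2 j, ht2.2⟩, ht3⟩
  have hc1 : 1 / (4 * (s : ℝ) + 2) ≤ 1 := by
    rw [div_le_one (by positivity)]
    linarith
  have hkey := T2H28.EP.rand_sum P (fun N ω => ‖J F s N (fun n => f n ω) - T s N‖ ^ 2)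
    (fun N => (meas hf F s N).norm.pow_const 2) (fun N ω => by positivity)
    (fun N => Integrable.of_bound (C := ((Nd F s N).card : ℝ) ^ 2)
      ((meas hf F s N).norm.pow_const 2).aestronglyMeasurable
      (Filter.Eventually.of_forall fun ω => by
        rw [Real.norm_of_nonneg (by positivity)]
        exact pow_le_pow_left₀ (norm_nonneg _) (hbd N ω) 2))
    C (2 * s) (1 / (4 * s + 2)) hC (by positivity) (by linarith) hmain
  filter_upwards [hkey] with ω hω _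
  obtain ⟨K, hK, hKX⟩ := hω
  have e1 : 2 * (s : ℝ) + 1 - 1 / (4 * s + 2) / 2 = 2 * (s : ℝ) + 1 - 1 / (8 * s + 4) := by
    congr 1
    rw [div_div]
    congr 1
    ring
  rw [e1] at hKX
  refine ⟨K, hK, fun X hX => ⟨hKX X, ?_⟩⟩
  have hX0 : (0 : ℝ) < X := by exact_mod_cast hX
  set B := (Icc 1 X).filter (fun N => (X : ℝ) ^ ((s : ℝ) - 1 / (32 * s + 16)) <
    ‖J F s N (fun n => f n ω) - T s N‖) with hB
  have hset : {N : ℕ | 1 ≤ N ∧ N ≤ X ∧ (X : ℝ) ^ ((s : ℝ) - 1 / (32 * s + 16)) <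
      ‖J F s N (fun n => f n ω) - T s N‖} = (B : Set ℕ) := by
    ext N
    rw [hB, mem_coe, mem_filter, mem_Icc, and_assoc]
    rfl
  rw [hset, Set.ncard_coe_finset]
  set Y := (X : ℝ) ^ ((s : ℝ) - 1 / (32 * s + 16)) with hY
  have hY0 : 0 < Y := by positivity
  have h3 : (B.card : ℝ) * Y ^ 2 ≤ K * (X : ℝ) ^ (2 * (s : ℝ) + 1 - 1 / (8 * s + 4)) := by
    calc (B.card : ℝ) * Y ^ 2 = ∑ _N ∈ B, Y ^ 2 := by rw [Finset.sum_const, nsmul_eq_mul]
      _ ≤ ∑ N ∈ B, ‖J F s N (fun n => f n ω) - T s N‖ ^ 2 := by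
          refine Finset.sum_le_sum fun N hN => ?_
          exact pow_le_pow_left₀ hY0.le (mem_filter.1 hN).2.le 2
      _ ≤ ∑ N ∈ Icc 1 X, ‖J F s N (fun n => f n ω) - T s N‖ ^ 2 :=
          Finset.sum_le_sum_of_subset_of_nonneg (filter_subset _ _) fun N _ _ => by positivity
      _ ≤ _ := hKX X
  have h4 : K * (X : ℝ) ^ (2 * (s : ℝ) + 1 - 1 / (8 * s + 4)) =
      K * (X : ℝ) ^ (1 - 1 / (16 * (s : ℝ) + 8)) * Y ^ 2 := by
    rw [mul_assoc]
    congr 1
    rw [hY, ← Real.rpow_natCast ((X : ℝ) ^ ((s : ℝ) - 1 / (32 * s + 16))) 2,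
      ← Real.rpow_mul hX0.le, ← Real.rpow_add hX0]
    congr 1
    push_cast
    field_simp
    ring
  rw [h4] at h3
  exact le_of_mul_le_mul_right h3 (by positivity)

end Pool.Agent.Results.MP_e21eee_nt.RandomMultiplicative
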